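import Pool.Agent.W819.NC.Stm

/-!
# Project NC: translation invariance and locality (LOCG), moments of thin annuli (AMOM)
-/

set_option autoImplicit false

namespace Pool.Agent.W672.NC
open H974 Finset Pool.Agent.W819.EN Pool.Agent.W819.NC
open scoped Real

theorem okP : Ok (P2 : Edg → ℝ) := fun _ => ⟨by norm_num, by norm_num⟩

theorem trl_bx (v : Vtx) (k : ℤ) : (trl v.1 v.2).mp (bx (0, 0) k) = bx v k := by
  unfold bx
  rw [trl_RE]
  congr 1 <;> simp <;> ring

theorem loc' {N : NT} (hG : Geo N) {v : Vtx} {r R : ℕ} (h : r ≤ R)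
    {S : Finset Edg} (hS : an v r R ⊆ S) (F : Finset Edg) : N F v r R = N (F ∩ S) v r R := by
  rw [hG.loc F v r R h, hG.loc (F ∩ S) v r R h]
  congr 1
  ext x
  simp only [Finset.mem_inter]
  constructor
  · rintro ⟨h1, h2⟩
    exact ⟨⟨h1, hS h2⟩, h2⟩
  · rintro ⟨⟨h1, -⟩, h2⟩
    exact ⟨h1, h2⟩

theorem t_LOCG {N : NT} (hG : Geo N) : LocG N := by
  intro t v r R S hrR hS
  have h1 : an v r R ⊆ bx v R := sdiff_subset
  rw [Ex_local hS (fun F _ => by rw [loc' hG hrR h1 F])]
  rw [← trl_bx v, LSym.mp, Ex_map]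
  unfold G
  apply Ex_congr
  intro F _
  have h2 := hG.tr F v (0, 0) r R
  have e : ((0 : ℤ) + v.1, (0 : ℤ) + v.2) = v := by simp
  simp only [LSym.mp] at h2
  rw [e] at h2
  rw [h2]

theorem t_AMOM {N : NT} {W : WT} {K : KT} (h : Sys N W K) : AMom N := by
  intro s hs M
  obtain ⟨C, hC, hK⟩ := h.kmom (s ^ 2) (one_le_pow₀ hs) M
  refine ⟨1 + C, by linarith, ?_⟩
  intro v r R S hr hrR hRM hS
  rcases hrR.eq_or_lt with rfl | hlt
  · have : Ex P2 S (fun F => s ^ N F v r r) = 1 := by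
      rw [← Ex_const P2 S 1]
      apply Ex_congr
      intro F _
      rw [h.zero]; simp
    rw [this]; linarith
  · have h1 := hK (v.1 + r) (v.1 + R) (v.2 - r) (v.2 + r) S (by omega) (by omega) (by
      have e : (v.2 + (r : ℤ) - (v.2 - r)) = 2 * r := by ring
      have e2 : (v.1 + (R : ℤ) - (v.1 + r)) = R - r := by ring
      rw [e, e2]
      have h2 : (R : ℤ) ≤ M * r := by exact_mod_cast hRM
      have h3 : (0 : ℤ) ≤ (M : ℤ) * r := by positivity
      linarith) (by
      refine (LRE_subset_RE.trans ?_).trans hS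
      unfold bx
      exact RE_subset (by omega) (by omega) (by omega) (by omega))
    have h2 : Ex P2 S (fun F => s ^ N F v r R) ≤
        Ex P2 S (fun F => (s ^ 2) ^ K F (v.1 + r) (v.1 + R) (v.2 - r) (v.2 + r)) := by
      apply Ex_mono okP
      intro F _
      rw [← pow_mul]
      exact pow_le_pow_right₀ hs (h.right F v r r R le_rfl hrR)
    linarith

end Pool.Agent.W672.NC
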